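import Pool.Agent.Helper42.CV.Defs
import Pool.Agent.Helper29.TRI.VDefs

/-!
# CV, block C10a: points of Veronese images span large spaces over the constants
-/

set_option autoImplicit false

namespace Pool.Agent.CV

open Module MvPolynomial Pool.Agent.TRI

universe u

/-- powers of a transcendental element, times a constant -/
theorem li_pow_h29 {κ E : Type*} [Field κ] [Field E] [Algebra κ E] {x c : E} (hx : Transcendental κ x) (hc : c ≠ 0) (d : ℕ) :
    LinearIndependent κ fun a : Fin (d + 1) => c * x ^ (a : ℕ) := by
  classical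
  rw [Fintype.linearIndependent_iff]
  intro g hg a
  have h1 : Polynomial.aeval x (∑ b : Fin (d + 1), Polynomial.monomial (b : ℕ) (g b)) = 0 := by
    rw [map_sum]
    have h2 : c * ∑ b : Fin (d + 1), Polynomial.aeval x (Polynomial.monomial (b : ℕ) (g b)) = 0 := by
      rw [Finset.mul_sum, ← hg]
      refine Finset.sum_congr rfl fun b _ => ?_
      rw [Polynomial.aeval_monomial, Algebra.smul_def]
      ring
    exact (mul_eq_zero.1 h2).resolve_left hc
  have h2 := (transcendental_iff.1 hx) _ h1
  have h3 := congrArg (fun p => Polynomial.coeff p (a : ℕ)) h2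
  simp only [Polynomial.finsetSum_coeff, Polynomial.coeff_monomial, Polynomial.coeff_zero] at h3
  rw [Finset.sum_eq_single a] at h3
  · simpa using h3
  · intro b _ hb
    rw [if_neg fun h => hb (Fin.ext h)]
  · intro h
    exact absurd (Finset.mem_univ a) h

theorem finrank_h29 {κ E : Type*} [Field κ] [Field E] [Algebra κ E] {n d : ℕ} (ξ : Fin n → E) (v : Fin (d + 1) → E)
    (hv : LinearIndependent κ v) (hr : ∀ a, v a ∈ Submodule.span κ (Set.range ξ)) :
    d + 1 ≤ finrank κ (Submodule.span κ (Set.range ξ)) := by
  have hfin : FiniteDimensional κ (Submodule.span κ (Set.range ξ)) :=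
    FiniteDimensional.span_of_finite κ (Set.finite_range ξ)
  have h1 : LinearIndependent κ fun a => (⟨v a, hr a⟩ : Submodule.span κ (Set.range ξ)) :=
    LinearIndependent.of_comp (Submodule.span κ (Set.range ξ)).subtype hv
  have h2 := h1.fintype_card_le_finrank
  rwa [Fintype.card_fin] at h2

theorem spn_one {k₀ : Type u} [Field k₀] {N : ℕ} (I : Ideal (MvPolynomial (Fin (N + 1)) k₀)) : Spn 1 I := by
  intro E _ _ κ hκ ξ h1 _ h2
  obtain ⟨j₀, hj₀⟩ := h1
  obtain ⟨j₁, hj₁⟩ := h2
  have htr : Transcendental κ (ξ j₁) := fun h => hj₁ (hκ _ h)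
  refine finrank_h29 ξ _ (li_pow_h29 htr one_ne_zero 1) ?_
  intro a
  fin_cases a
  · rw [← hj₀]
    simp only [pow_zero, mul_one]
    exact Submodule.subset_span ⟨j₀, rfl⟩
  · simp only [pow_one, one_mul]
    exact Submodule.subset_span ⟨j₁, rfl⟩

theorem spn_ver {k₀ : Type u} [Field k₀] {N N' d : ℕ} (hd : 1 ≤ d) (e : Fin (N' + 1) ≃ Sym (Fin (N + 1)) d)
    (I' : Ideal (MvPolynomial (Fin (N' + 1)) k₀))
    (hI' : ∀ p : MvPolynomial (Fin (N' + 1)) k₀, aeval (ver e (X : Fin (N + 1) → MvPolynomial (Fin (N + 1)) k₀)) p = 0 → p ∈ I') :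
    Spn d I' := by
  classical
  intro E _ _ κ hκ ξ h1 hξ h2
  set η : Sym (Fin (N + 1)) d → E := fun s => ξ (e.symm s) with hη
  -- the relations
  have hver : ∀ S : Multiset (Sym (Fin (N + 1)) d),
      aeval (ver e (X : Fin (N + 1) → MvPolynomial (Fin (N + 1)) k₀)) ((S.map fun s => (X (e.symm s) :
        MvPolynomial (Fin (N' + 1)) k₀)).prod) = ((S.map fun s : Sym (Fin (N + 1)) d => (s : Multiset (Fin (N + 1)))).sum.map
          (X : Fin (N + 1) → MvPolynomial (Fin (N + 1)) k₀)).prod := by
    intro S
    induction S using Multiset.induction_on with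
    | empty => simp
    | cons a S ih =>
      rw [Multiset.map_cons, Multiset.prod_cons, map_mul, ih, Multiset.map_cons, Multiset.sum_cons, Multiset.map_add,
        Multiset.prod_add, aeval_X]
      congr 1
      change ((e (e.symm a) : Multiset (Fin (N + 1))).map _).prod = _
      rw [Equiv.apply_symm_apply]
  have hev : ∀ S : Multiset (Sym (Fin (N + 1)) d), aeval ξ ((S.map fun s => (X (e.symm s) :
        MvPolynomial (Fin (N' + 1)) k₀)).prod) = (S.map η).prod := by
    intro S
    rw [map_multiset_prod, Multiset.map_map]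
    congr 1
    refine Multiset.map_congr rfl fun s _ => ?_
    simp only [Function.comp_apply, aeval_X, hη]
  have hrel : ∀ S T : Multiset (Sym (Fin (N + 1)) d), (S.map fun s : Sym (Fin (N + 1)) d => (s : Multiset (Fin (N + 1)))).sum =
      (T.map fun s : Sym (Fin (N + 1)) d => (s : Multiset (Fin (N + 1)))).sum → (S.map η).prod = (T.map η).prod := by
    intro S T hST
    have h3 := hξ _ (hI' ((S.map fun s => (X (e.symm s) : MvPolynomial (Fin (N' + 1)) k₀)).prod -
      (T.map fun s => (X (e.symm s) : MvPolynomial (Fin (N' + 1)) k₀)).prod) (by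
        rw [map_sub, hver, hver, hST, sub_self]))
    rw [map_sub, hev, hev] at h3
    exact sub_eq_zero.1 h3
  obtain ⟨j₀, hj₀⟩ := h1
  have hs0 : η (e j₀) = 1 := by
    simp only [hη, Equiv.symm_apply_apply, hj₀]
  set s₀ : Sym (Fin (N + 1)) d := e j₀ with hs₀
  have hcard : Multiset.card (s₀ : Multiset (Fin (N + 1))) = d := s₀.2
  have hsumrep : ∀ S : Multiset (Fin (N + 1)), ((S.map fun i => Sym.replicate d i).map
      fun s : Sym (Fin (N + 1)) d => (s : Multiset (Fin (N + 1)))).sum = d • S := by
    intro S
    induction S using Multiset.induction_on with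
    | empty => simp
    | cons a S ih =>
      rw [Multiset.map_cons, Multiset.map_cons, Multiset.sum_cons, ih, Sym.coe_replicate]
      rw [← Multiset.singleton_add, smul_add, ← Multiset.nsmul_singleton]
  have hne : ∀ i ∈ (s₀ : Multiset (Fin (N + 1))), η (Sym.replicate d i) ≠ 0 := by
    intro i hi h3
    have h4 := hrel ((s₀ : Multiset (Fin (N + 1))).map fun i => Sym.replicate d i) (Multiset.replicate d s₀) (by
      rw [hsumrep, Multiset.map_replicate, Multiset.sum_replicate])
    rw [Multiset.map_replicate, Multiset.prod_replicate, hs0, one_pow] at h4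
    have h5 : (0 : E) ∈ (((s₀ : Multiset (Fin (N + 1))).map fun i => Sym.replicate d i).map η) := by
      rw [Multiset.map_map]
      exact Multiset.mem_map.2 ⟨i, hi, h3⟩
    rw [Multiset.prod_eq_zero h5] at h4
    exact zero_ne_one h4
  obtain ⟨i, hi⟩ : ∃ i, i ∈ (s₀ : Multiset (Fin (N + 1))) := by
    rw [← Multiset.card_pos_iff_exists_mem, hcard]
    omega
  set c : E := η (Sym.replicate d i) with hc
  have hc0 : c ≠ 0 := hne i hi
  obtain ⟨d', rfl⟩ : ∃ d', d = d' + 1 := ⟨d - 1, by omega⟩
  set x : Fin (N + 1) → E := fun j => η (j ::ₛ Sym.replicate d' i) / c with hx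
  have hxi : x i = 1 := by
    simp only [hx]
    rw [div_eq_one_iff_eq hc0, hc]
    rfl
  -- the formula
  have hform : ∀ s : Sym (Fin (N + 1)) (d' + 1), η s = c * ((s : Multiset (Fin (N + 1))).map x).prod := by
    intro s
    have hcs : Multiset.card (s : Multiset (Fin (N + 1))) = d' + 1 := s.2
    have h3 := hrel (s ::ₘ Multiset.replicate d' (Sym.replicate (d' + 1) i))
      ((s : Multiset (Fin (N + 1))).map fun j => (j ::ₛ Sym.replicate d' i)) (by
        have h4 : ∀ S : Multiset (Fin (N + 1)), ((S.map fun j => (j ::ₛ Sym.replicate d' i)).map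
            fun s : Sym (Fin (N + 1)) (d' + 1) => (s : Multiset (Fin (N + 1)))).sum = S + (Multiset.card S) • Multiset.replicate d' i := by
          intro S
          induction S using Multiset.induction_on with
          | empty => simp
          | cons a S ih =>
            rw [Multiset.map_cons, Multiset.map_cons, Multiset.sum_cons, ih, Multiset.card_cons, Sym.coe_cons,
              Sym.coe_replicate, add_smul, one_smul, ← Multiset.singleton_add, ← Multiset.singleton_add]
            abel
        rw [h4, Multiset.map_cons, Multiset.sum_cons, Multiset.map_replicate, Multiset.sum_replicate, hcs,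
          Sym.coe_replicate]
        congr 1
        rw [← Multiset.nsmul_singleton, ← Multiset.nsmul_singleton, smul_smul, smul_smul, mul_comm])
    rw [Multiset.map_cons, Multiset.prod_cons, Multiset.map_replicate, Multiset.prod_replicate, Multiset.map_map] at h3
    have h4 : ∀ S : Multiset (Fin (N + 1)), (S.map (η ∘ fun j => (j ::ₛ Sym.replicate d' i))).prod =
        c ^ (Multiset.card S) * (S.map x).prod := by
      intro S
      induction S using Multiset.induction_on with
      | empty => simp
      | cons a S ih =>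
        rw [Multiset.map_cons, Multiset.prod_cons, ih, Multiset.card_cons, Multiset.map_cons, Multiset.prod_cons,
          Function.comp_apply]
        have h5 : η (a ::ₛ Sym.replicate d' i) = c * x a := by
          simp only [hx]
          field_simp
        rw [h5]
        ring
    rw [h4, hcs, ← hc] at h3
    have h5 : c ^ d' ≠ 0 := pow_ne_zero _ hc0
    apply mul_right_cancel₀ h5
    rw [h3]
    ring
  -- a nonconstant coordinate
  obtain ⟨j, hj⟩ : ∃ j, x j ∉ κ := by
    by_contra hcon
    push Not at hcon
    have hprod : ∀ S : Multiset (Fin (N + 1)), (S.map x).prod ∈ κ := by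
      intro S
      refine Submonoid.multiset_prod_mem κ.toSubfield.toSubring.toSubmonoid _ ?_
      intro z hz
      obtain ⟨j, -, rfl⟩ := Multiset.mem_map.1 hz
      exact hcon j
    have hcκ : c ∈ κ := by
      have h3 := hform s₀
      rw [hs0] at h3
      have h4 : c = (((s₀ : Multiset (Fin (N + 1))).map x).prod)⁻¹ := (eq_inv_of_mul_eq_one_left h3.symm)
      rw [h4]
      exact κ.inv_mem (hprod _)
    obtain ⟨j, hj⟩ := h2
    apply hj
    have h3 := hform (e j)
    simp only [hη, Equiv.symm_apply_apply] at h3
    rw [h3]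
    exact κ.mul_mem hcκ (hprod _)
  have htr : Transcendental κ (x j) := fun h => hj (hκ _ h)
  refine finrank_h29 ξ _ (li_pow_h29 htr hc0 (d' + 1)) ?_
  intro a
  have ha : (a : ℕ) ≤ d' + 1 := by omega
  have hcd : Multiset.card (Multiset.replicate (a : ℕ) j + Multiset.replicate (d' + 1 - a) i) = d' + 1 := by
    rw [Multiset.card_add, Multiset.card_replicate, Multiset.card_replicate]
    omega
  have h3 := hform ⟨_, hcd⟩
  change η ⟨_, hcd⟩ = c * ((Multiset.replicate (a : ℕ) j + Multiset.replicate (d' + 1 - a) i).map x).prod at h3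
  rw [Multiset.map_add, Multiset.prod_add, Multiset.map_replicate, Multiset.map_replicate, Multiset.prod_replicate,
    Multiset.prod_replicate, hxi, one_pow, mul_one] at h3
  rw [← h3]
  exact Submodule.subset_span ⟨_, rfl⟩

end Pool.Agent.CV
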