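import Pool.Agent.Helper97.CV.C1
import Pool.Agent.Helper20.DER.Geo

/-!
# CV, block C9a: the function field is one of a curve
-/

set_option autoImplicit false

namespace Pool.Agent.CV

open Module MvPolynomial AlgebraicIndependent Pool.Agent.Helper20.DER Pool.Agent.TRI

universe u

theorem crv_cv {k k' E : Type u} [Field k] [CharZero k] [Field k'] [Field E] [Algebra k k'] [Algebra k' E] [Algebra k E]
    [IsScalarTower k k' E] {N : ℕ} {J : Ideal (MvPolynomial (Fin (N + 1)) k)} (hJ : Vty 1 J)
    (ξ : Fin (N + 1) → E) (h1 : ∃ j, ξ j = 1) (hg : IntermediateField.adjoin k' (Set.range ξ) = ⊤) (ht : ∃ j, Transcendental k' (ξ j))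
    (hξ : OnX J ξ) : Crv (Submodule.span k' (Set.range ξ)) := by
  classical
  have hr : (matroid k' E).eRk (Set.range ξ) ≤ 1 := by
    by_contra hcon
    push Not at hcon
    have h2 : ((2 : ℕ) : ℕ∞) ≤ (matroid k' E).eRk (Set.range ξ) := Order.add_one_le_of_lt hcon
    obtain ⟨B, hBS, hB, hBn⟩ := Matroid.le_eRk_iff.1 h2
    rw [matroid_indep_iff] at hB
    have hBk : AlgebraicIndependent k (Subtype.val : B → E) :=
      AlgebraicIndependent.restrictScalars (algebraMap k k').injective hB
    let Q := IntermediateField.adjoin k (Set.range ξ)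
    let x : B → Q := fun b => ⟨b.1, IntermediateField.subset_adjoin k _ (hBS b.2)⟩
    have hx : AlgebraicIndependent k x := AlgebraicIndependent.of_comp Q.val hBk
    have h3 := hx.cardinalMk_le_trdeg
    have h4 := h3.trans (trdeg_le_n hJ ξ h1 hξ)
    have hfin : B.Finite := Set.finite_of_encard_eq_coe hBn
    have hcard : Nat.card B = 2 := by
      rw [Nat.card_coe_set_eq, Set.ncard_def, hBn]; rfl
    have hFi : Finite B := hfin
    rw [← Nat.cast_card (α := B), hcard] at h4
    exact absurd (Nat.cast_le.1 h4) (by norm_num)
  have huniv : (matroid k' E).eRk Set.univ ≤ 1 := by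
    have h2 : Set.univ ⊆ (matroid k' E).closure (Set.range ξ) := by
      intro y _
      apply adjoin_subset_closure
      rw [hg]
      trivial
    refine ((matroid k' E).eRk_mono h2).trans ?_
    rw [Matroid.eRk_closure_eq]
    exact hr
  refine ⟨?_, ?_, ?_, fun x y hx => ?_⟩
  · obtain ⟨j, hj⟩ := h1
    rw [← hj]
    exact Submodule.subset_span ⟨j, rfl⟩
  · rw [eq_top_iff, ← hg]
    exact IntermediateField.adjoin.mono _ _ _ Submodule.subset_span
  · obtain ⟨j, hj⟩ := ht
    exact ⟨ξ j, Submodule.subset_span ⟨j, rfl⟩, hj⟩
  · have hx1 : (matroid k' E).Indep {x} := by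
      rw [matroid_indep_iff]
      have h2 : AlgebraicIndependent k' (fun _ : Unit => x) :=
        algebraicIndependent_unique_type_iff.2 hx
      have h3 := h2.coe_range
      rwa [Set.range_const] at h3
    have hy : y ∈ (matroid k' E).closure {x} := by
      by_contra hy
      have h2 : (matroid k' E).Indep (insert y {x}) := by
        rw [Matroid.Indep.insert_indep_iff hx1]
        left
        exact ⟨by rw [matroid_e]; exact Set.mem_univ _, hy⟩
      have h3 := (matroid k' E).eRk_mono (Set.subset_univ (insert y {x}))
      rw [h2.eRk_eq_encard, Set.encard_insert_of_notMem, Set.encard_singleton] at h3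
      · exact absurd (h3.trans huniv) (by norm_num)
      · intro hmem
        exact hy (subset_closure' _ hmem)
    rw [Pool.Agent.Helper20.DER.mem_closure_iff] at hy
    let ι : Algebra.adjoin k' {x} →+* IntermediateField.adjoin k' {x} :=
      { toFun := fun z => ⟨z.1, IntermediateField.algebra_adjoin_le_adjoin k' {x} z.2⟩
        map_one' := rfl
        map_zero' := rfl
        map_add' := fun _ _ => rfl
        map_mul' := fun _ _ => rfl }
    have hι : Function.Injective ι := fun a b hab =>
      Subtype.ext (congrArg (fun w : IntermediateField.adjoin k' {x} => (w : E)) hab)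
    refine hy.ringHom_of_comp_eq ι (RingHom.id E) hι ?_
    ext a
    rfl

end Pool.Agent.CV
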